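import Pool.Agent.H174.GP.StA
import Pool.Agent.H174.GP.StP
import Pool.Agent.H174.GP.StC
import Pool.Agent.H174.GP.StB

set_option autoImplicit false

open MeasureTheory ProbabilityTheory Finset Filter Topology

namespace Pool.Agent.H337.GP174

open Pool.Agent.H174.GP

theorem r_lowInt (f : (ℕ → ℝ) → ℝ) (hf : Integrable f PP) (hf0 : ∀ ω, 0 ≤ f ω) (T : Set (ℕ → ℝ))
    (hT : MeasurableSet T) (b : ℝ) (h : ∀ ω ∈ T, b ≤ f ω) : PP.real T * b ≤ ∫ ω, f ω ∂PP := by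
  have h1 : ∫ ω, T.indicator (fun _ => b) ω ∂PP = PP.real T * b := by
    rw [integral_indicator_const b hT, smul_eq_mul]
  rw [← h1]
  refine integral_mono ((integrable_const b).indicator hT) hf (fun ω => ?_)
  by_cases hω : ω ∈ T
  · simp only [Set.indicator_of_mem hω]; exact h ω hω
  · simp only [Set.indicator_of_notMem hω]; exact hf0 ω

theorem r_upInt (f : (ℕ → ℝ) → ℝ) (hf : Integrable f PP) (T : Set (ℕ → ℝ))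
    (hT : MeasurableSet T) (b : ℝ) (h : ∀ ω ∈ T, f ω ≤ b) (h' : ∀ ω, ω ∉ T → f ω ≤ 0) :
    ∫ ω, f ω ∂PP ≤ PP.real T * b := by
  have h1 : ∫ ω, T.indicator (fun _ => b) ω ∂PP = PP.real T * b := by
    rw [integral_indicator_const b hT, smul_eq_mul]
  rw [← h1]
  refine integral_mono hf ((integrable_const b).indicator hT) (fun ω => ?_)
  by_cases hω : ω ∈ T
  · simp only [Set.indicator_of_mem hω]; exact h ω hω
  · simp only [Set.indicator_of_notMem hω]; exact h' ω hω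

theorem r_meas_geo (hTq : S_Tq) (σ : ℝ) (hσ : 0 < σ) (j : ℕ) (hj : 1 ≤ j) :
    Measurable (fun ω : ℕ → ℝ => geo σ ω j) := by
  have hj' : (0 : ℝ) < j := by exact_mod_cast hj
  exact (hTq (σ * j) (by positivity)).2.2.2.1.comp (measurable_pi_apply j)

theorem r_meas_sX (hTq : S_Tq) (σ : ℝ) (hσ : 0 < σ) (d : ℕ) :
    Measurable (fun ω : ℕ → ℝ => sX σ ω d) := by
  unfold sX
  refine Finset.measurable_fun_sum _ (fun j hj => ?_)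
  exact (measurable_of_countable (fun z : ℤ => (j : ℤ) * |z|)).comp
    (r_meas_geo hTq σ hσ j (Finset.mem_Icc.1 hj).1)

theorem r_meas_Cg (hTq : S_Tq) (σ : ℝ) (hσ : 0 < σ) (d k : ℕ) :
    Measurable (fun ω : ℕ → ℝ => Cg σ ω d k) := by
  unfold Cg Cs
  refine Finset.measurable_fun_sum _ (fun j hj => ?_)
  exact (measurable_of_countable (fun z : ℤ => ((min j k : ℕ) : ℝ) * (z : ℝ))).comp
    (r_meas_geo hTq σ hσ j (Finset.mem_Icc.1 hj).1)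

theorem r_meas_pers (hTq : S_Tq) (σ : ℝ) (hσ : 0 < σ) (d : ℕ) (t : ℕ → ℝ) :
    MeasurableSet {ω : ℕ → ℝ | ∀ k ∈ Finset.Icc 1 d, t k ≤ Cg σ ω d k} := by
  have h : {ω : ℕ → ℝ | ∀ k ∈ Finset.Icc 1 d, t k ≤ Cg σ ω d k}
      = ⋂ k ∈ Finset.Icc 1 d, {ω : ℕ → ℝ | t k ≤ Cg σ ω d k} := by
    ext ω; simp
  rw [h]
  exact Finset.measurableSet_biInter _ (fun k _ => measurableSet_le measurable_const (r_meas_Cg hTq σ hσ d k))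

theorem r_meas_typ (hTq : S_Tq) (σ : ℝ) (hσ : 0 < σ) (d : ℕ) (a b : ℝ) (p : ℤ) :
    MeasurableSet {ω : ℕ → ℝ | |(sX σ ω d : ℝ) - a| ≤ b ∧ sX σ ω d % 2 = p} := by
  have h : {ω : ℕ → ℝ | |(sX σ ω d : ℝ) - a| ≤ b ∧ sX σ ω d % 2 = p}
      = (fun ω : ℕ → ℝ => sX σ ω d) ⁻¹' {z : ℤ | |(z : ℝ) - a| ≤ b ∧ z % 2 = p} := rfl
  rw [h]
  exact r_meas_sX hTq σ hσ d (Set.to_countable _).measurableSet

theorem r_meas_wA (hTq : S_Tq) (d n : ℕ) (σ : ℝ) (hσ : 0 < σ) :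
    Measurable (fun ω : ℕ → ℝ => wA d n σ ω) := by
  classical
  have h : (fun ω : ℕ → ℝ => wA d n σ ω) = (fun z : ℤ => if Even ((2 * n : ℤ) - (d : ℤ) ^ 2 - z) then
    aa d σ (((2 * n : ℤ) - (d : ℤ) ^ 2 - z) / 2) else 0) ∘ (fun ω => sX σ ω d) := by
    funext ω
    unfold wA
    simp only [Function.comp]
  rw [h]
  exact (measurable_of_countable _).comp (r_meas_sX hTq σ hσ d)

theorem r_aa_nonneg (d : ℕ) (σ : ℝ) (hσ : 0 < σ) (m : ℤ) : 0 ≤ aa d σ m := by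
  unfold aa
  split_ifs
  · refine mul_nonneg (mul_nonneg (Nat.cast_nonneg _) (Real.exp_pos _).le)
      (Finset.prod_nonneg (fun j hj => sub_nonneg.2 (Real.exp_le_one_iff.2 ?_)))
    have : (0 : ℝ) ≤ j := Nat.cast_nonneg _
    have : 0 ≤ 2 * σ * j := by positivity
    linarith
  · exact le_rfl

theorem r_wA_nonneg (d n : ℕ) (σ : ℝ) (hσ : 0 < σ) (ω : ℕ → ℝ) : 0 ≤ wA d n σ ω := by
  unfold wA
  split_ifs
  · exact r_aa_nonneg d σ hσ _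
  · exact le_rfl

theorem r_wA_le (d n : ℕ) (σ B : ℝ) (hB : 0 ≤ B) (h : ∀ m : ℤ, aa d σ m ≤ B) (ω : ℕ → ℝ) :
    wA d n σ ω ≤ B := by
  unfold wA
  split_ifs
  · exact h _
  · exact hB

theorem r_wA_int (hTq : S_Tq) (d n : ℕ) (σ B : ℝ) (hσ : 0 < σ) (hB : 0 ≤ B)
    (h : ∀ m : ℤ, aa d σ m ≤ B) : Integrable (fun ω : ℕ → ℝ => wA d n σ ω) PP := by
  refine Integrable.mono' (integrable_const B) (r_meas_wA hTq d n σ hσ).aestronglyMeasurable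
    (Filter.Eventually.of_forall (fun ω => ?_))
  rw [Real.norm_eq_abs, abs_of_nonneg (r_wA_nonneg d n σ hσ ω)]
  exact r_wA_le d n σ B hB h ω

theorem r_parity (d n : ℕ) (s : ℤ) (h : s % 2 = (d : ℤ) % 2) : Even ((2 * n : ℤ) - (d : ℤ) ^ 2 - s) := by
  have h1 : ((d : ℤ) ^ 2) % 2 = (d : ℤ) % 2 := by
    rcases Int.emod_two_eq_zero_or_one (d : ℤ) with h2 | h2
    · rw [pow_two, Int.mul_emod, h2]; rfl
    · rw [pow_two, Int.mul_emod, h2]; rfl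
  rw [Int.even_iff]
  omega

theorem r_wA_low (d n : ℕ) (σ e ε' : ℝ)
    (hB1 : (d : ℝ) ^ 2 + 2 * mu d σ + m1 d σ = 2 * n)
    (hl : ∀ m : ℤ, |(m : ℝ) - mu d σ| ≤ Real.sqrt (ε' * Real.log d) * (d : ℝ) ^ (3 / 2 : ℝ) →
      (d : ℝ) ^ (-(3 / 2) - e : ℝ) ≤ aa d σ m) (ω : ℕ → ℝ)
    (h1 : |(sX σ ω d : ℝ) - m1 d σ| ≤ Real.sqrt (ε' * Real.log d) * (d : ℝ) ^ (3 / 2 : ℝ))
    (h2 : sX σ ω d % 2 = (d : ℤ) % 2) : (d : ℝ) ^ (-(3 / 2) - e : ℝ) ≤ wA d n σ ω := by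
  have hev := r_parity d n (sX σ ω d) h2
  unfold wA
  rw [if_pos hev]
  apply hl
  obtain ⟨r, hr⟩ := hev
  have h3 : ((2 * n : ℤ) - (d : ℤ) ^ 2 - sX σ ω d) / 2 = r := by omega
  rw [h3]
  have h4 : (2 * n : ℝ) - (d : ℝ) ^ 2 - (sX σ ω d : ℝ) = r + r := by exact_mod_cast hr
  have h5 : (r : ℝ) - mu d σ = -(((sX σ ω d : ℝ) - m1 d σ) / 2) := by linarith
  rw [h5, abs_neg, abs_div, abs_two]
  have h6 : 0 ≤ |(sX σ ω d : ℝ) - m1 d σ| := abs_nonneg _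
  linarith

theorem r_core (d n : ℕ) (σ θ e C c ε' : ℝ) (hd : 1 ≤ d) (hσ : 0 < σ) (hC : 0 < C) (hc : 0 < c)
    (hTq : S_Tq) (hB1 : (d : ℝ) ^ 2 + 2 * mu d σ + m1 d σ = 2 * n)
    (hB2 : ∃ Zc : ℝ, 0 < Zc ∧
      (cnt d (2 * n) : ℝ) = Zc * ∫ ω, wA d n σ ω ∂PP ∧
      (cntP d (2 * n) : ℝ) = Zc * ∫ ω, Set.indicator {ω | ∀ k ∈ Finset.Icc 1 d, (k : ℝ) ≤ Cg σ ω d k}
        (wA d n σ) ω ∂PP)
    (hu : ∀ m : ℤ, aa d σ m ≤ C * (d : ℝ) ^ (-(3 / 2) : ℝ))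
    (hl : ∀ m : ℤ, |(m : ℝ) - mu d σ| ≤ Real.sqrt (ε' * Real.log d) * (d : ℝ) ^ (3 / 2 : ℝ) →
      (d : ℝ) ^ (-(3 / 2) - e : ℝ) ≤ aa d σ m)
    (hPU : PP.real {ω | ∀ k ∈ Finset.Icc 1 d, 0 ≤ Cg σ ω d k} ≤ (d : ℝ) ^ (-θ + e))
    (hPL : ∀ p : ℤ, (p = 0 ∨ p = 1) →
      (d : ℝ) ^ (-θ - e) ≤ PP.real {ω | (∀ k ∈ Finset.Icc 1 d, (k : ℝ) ≤ Cg σ ω d k) ∧
      |(sX σ ω d : ℝ) - m1 d σ| ≤ Real.sqrt (ε' * Real.log d) * (d : ℝ) ^ (3 / 2 : ℝ) ∧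
      sX σ ω d % 2 = p})
    (hPT : ∀ p : ℤ, (p = 0 ∨ p = 1) →
      c ≤ PP.real {ω | |(sX σ ω d : ℝ) - m1 d σ| ≤ Real.sqrt (ε' * Real.log d) * (d : ℝ) ^ (3 / 2 : ℝ) ∧
      sX σ ω d % 2 = p}) :
    (cntP d (2 * n) : ℝ) ≤ (C / c) * (d : ℝ) ^ (-θ + 2 * e) * cnt d (2 * n) ∧
    (1 / C) * (d : ℝ) ^ (-θ - 2 * e) * cnt d (2 * n) ≤ cntP d (2 * n) := by
  obtain ⟨Zc, hZ, hcnt, hcntP⟩ := hB2
  have hd0 : (0 : ℝ) < d := by exact_mod_cast hd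
  have hp : ((d : ℤ) % 2 = 0 ∨ (d : ℤ) % 2 = 1) := Int.emod_two_eq_zero_or_one _
  have hB0 : 0 ≤ C * (d : ℝ) ^ (-(3 / 2) : ℝ) := by positivity
  have hint := r_wA_int hTq d n σ _ hσ hB0 hu
  have hmP := r_meas_pers hTq σ hσ d (fun k => (k : ℝ))
  have hmT := r_meas_typ hTq σ hσ d (m1 d σ) (Real.sqrt (ε' * Real.log d) * (d : ℝ) ^ (3 / 2 : ℝ)) ((d : ℤ) % 2)
  have hintP : Integrable (Set.indicator {ω | ∀ k ∈ Finset.Icc 1 d, (k : ℝ) ≤ Cg σ ω d k} (wA d n σ)) PP :=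
    hint.indicator hmP
  -- the total integral
  have t1 : c * (d : ℝ) ^ (-(3 / 2) - e : ℝ) ≤ ∫ ω, wA d n σ ω ∂PP := by
    refine le_trans ?_ (r_lowInt _ hint (r_wA_nonneg d n σ hσ) _ hmT ((d : ℝ) ^ (-(3 / 2) - e : ℝ)) ?_)
    · exact mul_le_mul_of_nonneg_right (hPT _ hp) (by positivity)
    · rintro ω ⟨h1, h2⟩
      exact r_wA_low d n σ e ε' hB1 hl ω h1 h2
  have t2 : ∫ ω, wA d n σ ω ∂PP ≤ C * (d : ℝ) ^ (-(3 / 2) : ℝ) := by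
    have := r_upInt _ hint Set.univ MeasurableSet.univ (C * (d : ℝ) ^ (-(3 / 2) : ℝ))
      (fun ω _ => r_wA_le d n σ _ hB0 hu ω) (fun ω h => absurd (Set.mem_univ ω) h)
    simpa using this
  -- the persistence integral
  have t3 : ∫ ω, Set.indicator {ω | ∀ k ∈ Finset.Icc 1 d, (k : ℝ) ≤ Cg σ ω d k} (wA d n σ) ω ∂PP
      ≤ (d : ℝ) ^ (-θ + e) * (C * (d : ℝ) ^ (-(3 / 2) : ℝ)) := by
    refine le_trans (r_upInt _ hintP _ hmP (C * (d : ℝ) ^ (-(3 / 2) : ℝ)) ?_ ?_) ?_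
    · intro ω hω
      rw [Set.indicator_of_mem hω]
      exact r_wA_le d n σ _ hB0 hu ω
    · intro ω hω
      rw [Set.indicator_of_notMem hω]
    · refine mul_le_mul_of_nonneg_right (le_trans (measureReal_mono ?_) hPU) hB0
      intro ω hω k hk
      exact le_trans (Nat.cast_nonneg k) (hω k hk)
  have t4 : (d : ℝ) ^ (-θ - e) * (d : ℝ) ^ (-(3 / 2) - e : ℝ)
      ≤ ∫ ω, Set.indicator {ω | ∀ k ∈ Finset.Icc 1 d, (k : ℝ) ≤ Cg σ ω d k} (wA d n σ) ω ∂PP := by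
    refine le_trans ?_ (r_lowInt _ hintP ?_ _ (hmP.inter hmT) ((d : ℝ) ^ (-(3 / 2) - e : ℝ)) ?_)
    · exact mul_le_mul_of_nonneg_right (hPL _ hp) (by positivity)
    · intro ω
      exact Set.indicator_nonneg (fun ω _ => r_wA_nonneg d n σ hσ ω) ω
    · rintro ω ⟨h0, h1, h2⟩
      rw [Set.indicator_of_mem h0]
      exact r_wA_low d n σ e ε' hB1 hl ω h1 h2
  rw [hcnt, hcntP]
  constructor
  · have e1 : C / c * (d : ℝ) ^ (-θ + 2 * e) * (c * (d : ℝ) ^ (-(3 / 2) - e : ℝ))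
        = (d : ℝ) ^ (-θ + e) * (C * (d : ℝ) ^ (-(3 / 2) : ℝ)) := by
      have e2 : (d : ℝ) ^ (-θ + 2 * e) * (d : ℝ) ^ (-(3 / 2) - e : ℝ)
          = (d : ℝ) ^ (-θ + e) * (d : ℝ) ^ (-(3 / 2) : ℝ) := by
        rw [← Real.rpow_add hd0, ← Real.rpow_add hd0]
        congr 1
        ring
      have e3 : C / c * c = C := by field_simp
      calc C / c * (d : ℝ) ^ (-θ + 2 * e) * (c * (d : ℝ) ^ (-(3 / 2) - e : ℝ))
          = (C / c * c) * ((d : ℝ) ^ (-θ + 2 * e) * (d : ℝ) ^ (-(3 / 2) - e : ℝ)) := by ring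
        _ = C * ((d : ℝ) ^ (-θ + e) * (d : ℝ) ^ (-(3 / 2) : ℝ)) := by rw [e2, e3]
        _ = _ := by ring
    have e4 : C / c * (d : ℝ) ^ (-θ + 2 * e) * (c * (d : ℝ) ^ (-(3 / 2) - e : ℝ))
        ≤ C / c * (d : ℝ) ^ (-θ + 2 * e) * ∫ ω, wA d n σ ω ∂PP :=
      mul_le_mul_of_nonneg_left t1 (by positivity)
    have e5 := le_trans t3 (le_trans (le_of_eq e1.symm) e4)
    calc Zc * ∫ ω, Set.indicator {ω | ∀ k ∈ Finset.Icc 1 d, (k : ℝ) ≤ Cg σ ω d k} (wA d n σ) ω ∂PP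
        ≤ Zc * (C / c * (d : ℝ) ^ (-θ + 2 * e) * ∫ ω, wA d n σ ω ∂PP) := mul_le_mul_of_nonneg_left e5 hZ.le
      _ = _ := by ring
  · have e1 : 1 / C * (d : ℝ) ^ (-θ - 2 * e) * (C * (d : ℝ) ^ (-(3 / 2) : ℝ))
        = (d : ℝ) ^ (-θ - e) * (d : ℝ) ^ (-(3 / 2) - e : ℝ) := by
      have e2 : (d : ℝ) ^ (-θ - 2 * e) * (d : ℝ) ^ (-(3 / 2) : ℝ)
          = (d : ℝ) ^ (-θ - e) * (d : ℝ) ^ (-(3 / 2) - e : ℝ) := by
        rw [← Real.rpow_add hd0, ← Real.rpow_add hd0]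
        congr 1
        ring
      have e3 : 1 / C * C = 1 := by field_simp
      calc 1 / C * (d : ℝ) ^ (-θ - 2 * e) * (C * (d : ℝ) ^ (-(3 / 2) : ℝ))
          = (1 / C * C) * ((d : ℝ) ^ (-θ - 2 * e) * (d : ℝ) ^ (-(3 / 2) : ℝ)) := by ring
        _ = _ := by rw [e2, e3, one_mul]
    have e4 : 1 / C * (d : ℝ) ^ (-θ - 2 * e) * ∫ ω, wA d n σ ω ∂PP
        ≤ 1 / C * (d : ℝ) ^ (-θ - 2 * e) * (C * (d : ℝ) ^ (-(3 / 2) : ℝ)) :=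
      mul_le_mul_of_nonneg_left t2 (by positivity)
    have e5 := le_trans e4 (le_trans (le_of_eq e1) t4)
    calc 1 / C * (d : ℝ) ^ (-θ - 2 * e) * (Zc * ∫ ω, wA d n σ ω ∂PP)
        = Zc * (1 / C * (d : ℝ) ^ (-θ - 2 * e) * ∫ ω, wA d n σ ω ∂PP) := by ring
      _ ≤ _ := mul_le_mul_of_nonneg_left e5 hZ.le

theorem r_evup (θ c1 c2 e C : ℝ) (hθ : 0 ≤ θ) (h1 : 0 < c1) (h2 : 0 < c2) (he : 0 < e) (hC : 0 < C) :
    ∃ n0 : ℕ, ∀ n ≥ n0, ∀ d : ℕ, c1 * Real.sqrt n ≤ d → (d : ℝ) ≤ c2 * Real.sqrt n →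
      C * (d : ℝ) ^ (-θ + 2 * e) ≤ (n : ℝ) ^ (-(θ / 2) + 2 * e) := by
  have ht : Tendsto (fun n : ℕ => (n : ℝ) ^ e) atTop atTop :=
    (tendsto_rpow_atTop he).comp tendsto_natCast_atTop_atTop
  obtain ⟨n1, hn1⟩ := (ht.eventually_ge_atTop (C * (c1 ^ (-θ) * c2 ^ (2 * e)))).exists_forall_of_atTop
  refine ⟨max n1 1, fun n hn d hd1 hd2 => ?_⟩
  have hn0 : (0 : ℝ) < n := by
    have : 1 ≤ n := le_trans (le_max_right _ _) hn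
    exact_mod_cast this
  have hs : 0 < Real.sqrt n := Real.sqrt_pos.2 hn0
  have hd0 : (0 : ℝ) < d := lt_of_lt_of_le (by positivity) hd1
  have k1 : (d : ℝ) ^ (-θ) ≤ (c1 * Real.sqrt n) ^ (-θ) :=
    Real.rpow_le_rpow_of_nonpos (by positivity) hd1 (by linarith)
  have k2 : (d : ℝ) ^ (2 * e) ≤ (c2 * Real.sqrt n) ^ (2 * e) :=
    Real.rpow_le_rpow hd0.le hd2 (by positivity)
  have k3 : (c1 * Real.sqrt n) ^ (-θ) = c1 ^ (-θ) * (n : ℝ) ^ (-(θ / 2)) := by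
    rw [Real.mul_rpow h1.le hs.le, Real.sqrt_eq_rpow, ← Real.rpow_mul hn0.le]
    congr 2
    ring
  have k4 : (c2 * Real.sqrt n) ^ (2 * e) = c2 ^ (2 * e) * (n : ℝ) ^ e := by
    rw [Real.mul_rpow h2.le hs.le, Real.sqrt_eq_rpow, ← Real.rpow_mul hn0.le]
    congr 2
    ring
  rw [Real.rpow_add hd0]
  have k5 : (d : ℝ) ^ (-θ) * (d : ℝ) ^ (2 * e)
      ≤ (c1 ^ (-θ) * (n : ℝ) ^ (-(θ / 2))) * (c2 ^ (2 * e) * (n : ℝ) ^ e) := by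
    rw [← k3, ← k4]
    exact mul_le_mul k1 k2 (by positivity) (by positivity)
  have k6 := hn1 n (le_trans (le_max_left _ _) hn)
  calc C * ((d : ℝ) ^ (-θ) * (d : ℝ) ^ (2 * e))
      ≤ C * ((c1 ^ (-θ) * (n : ℝ) ^ (-(θ / 2))) * (c2 ^ (2 * e) * (n : ℝ) ^ e)) :=
        mul_le_mul_of_nonneg_left k5 hC.le
    _ = (C * (c1 ^ (-θ) * c2 ^ (2 * e))) * ((n : ℝ) ^ (-(θ / 2)) * (n : ℝ) ^ e) := by ring
    _ ≤ (n : ℝ) ^ e * ((n : ℝ) ^ (-(θ / 2)) * (n : ℝ) ^ e) :=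
        mul_le_mul_of_nonneg_right k6 (by positivity)
    _ = (n : ℝ) ^ (-(θ / 2) + 2 * e) := by
        rw [← Real.rpow_add hn0, ← Real.rpow_add hn0]
        congr 1
        ring

theorem r_evlow (θ c2 e C : ℝ) (hθ : 0 ≤ θ) (h2 : 0 < c2) (he : 0 < e) (hC : 0 < C) :
    ∃ n0 : ℕ, ∀ n ≥ n0, ∀ d : ℕ, 1 ≤ d → (d : ℝ) ≤ c2 * Real.sqrt n →
      (n : ℝ) ^ (-(θ / 2) - 2 * e) ≤ 1 / C * (d : ℝ) ^ (-θ - 2 * e) := by
  have ht : Tendsto (fun n : ℕ => (n : ℝ) ^ e) atTop atTop :=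
    (tendsto_rpow_atTop he).comp tendsto_natCast_atTop_atTop
  obtain ⟨n1, hn1⟩ := (ht.eventually_ge_atTop (C * c2 ^ (θ + 2 * e))).exists_forall_of_atTop
  refine ⟨max n1 1, fun n hn d hd1 hd2 => ?_⟩
  have hn0 : (0 : ℝ) < n := by
    have : 1 ≤ n := le_trans (le_max_right _ _) hn
    exact_mod_cast this
  have hs : 0 < Real.sqrt n := Real.sqrt_pos.2 hn0
  have hd0 : (0 : ℝ) < d := by exact_mod_cast hd1
  have k1 : (c2 * Real.sqrt n) ^ (-θ - 2 * e) ≤ (d : ℝ) ^ (-θ - 2 * e) :=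
    Real.rpow_le_rpow_of_nonpos hd0 hd2 (by linarith)
  have k3 : (c2 * Real.sqrt n) ^ (-θ - 2 * e) = c2 ^ (-θ - 2 * e) * (n : ℝ) ^ (-(θ / 2) - e) := by
    rw [Real.mul_rpow h2.le hs.le, Real.sqrt_eq_rpow, ← Real.rpow_mul hn0.le]
    congr 2
    ring
  have k6 := hn1 n (le_trans (le_max_left _ _) hn)
  have k7 : c2 ^ (-θ - 2 * e) * c2 ^ (θ + 2 * e) = 1 := by
    rw [← Real.rpow_add h2]
    have : -θ - 2 * e + (θ + 2 * e) = 0 := by ring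
    rw [this, Real.rpow_zero]
  have k8 : 0 < c2 ^ (-θ - 2 * e) := by positivity
  -- C * n^(-θ/2-2e) ≤ c2^(-θ-2e) * n^(-θ/2-e)
  have k9 : C * (n : ℝ) ^ (-(θ / 2) - 2 * e) ≤ c2 ^ (-θ - 2 * e) * (n : ℝ) ^ (-(θ / 2) - e) := by
    have l1 : (n : ℝ) ^ (-(θ / 2) - e) = (n : ℝ) ^ e * (n : ℝ) ^ (-(θ / 2) - 2 * e) := by
      rw [← Real.rpow_add hn0]
      congr 1
      ring
    rw [l1]
    have l2 : C ≤ c2 ^ (-θ - 2 * e) * (n : ℝ) ^ e := by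
      calc C = c2 ^ (-θ - 2 * e) * (C * c2 ^ (θ + 2 * e)) := by
            rw [mul_left_comm, k7, mul_one]
        _ ≤ _ := mul_le_mul_of_nonneg_left k6 k8.le
    calc C * (n : ℝ) ^ (-(θ / 2) - 2 * e)
        ≤ (c2 ^ (-θ - 2 * e) * (n : ℝ) ^ e) * (n : ℝ) ^ (-(θ / 2) - 2 * e) :=
          mul_le_mul_of_nonneg_right l2 (by positivity)
      _ = _ := by ring
  have k10 : C * (n : ℝ) ^ (-(θ / 2) - 2 * e) ≤ (d : ℝ) ^ (-θ - 2 * e) := by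
    rw [← k3] at k9
    exact le_trans k9 k1
  rw [one_div, ← div_eq_inv_mul, le_div_iff₀ hC, mul_comm]
  exact k10

theorem gp_r (h1 : S_B1) (h2 : S_B2) (h3 : S_PU) (h4 : S_PL) (h5 : S_PT) (h6 : S_B4u) (h7 : S_B4l)
    (h8 : S_Tq) : Pool.Agent.H174.GP.S_R := by
  intro θ c1 c2 ε hθ hIs hc1 hc12 hc2 hε
  have hc20 : 0 < c2 := lt_trans hc1 hc12
  obtain ⟨s1, hs1, s2, hs2, hB1⟩ := h1 c1 c2 hc1 hc12 hc2
  obtain ⟨ε', hε', d1, hB4l⟩ := h7 s1 s2 (ε / 2) hs1 hs2 (by positivity)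
  obtain ⟨C, hC, d2, hB4u⟩ := h6 s1 s2 hs1 hs2
  obtain ⟨d3, hPU⟩ := h3 θ s1 s2 (ε / 2) hθ hIs hs1 hs2 (by positivity)
  obtain ⟨d4, hPL⟩ := h4 θ s1 s2 (ε / 2) ε' hθ hIs hs1 hs2 (by positivity) hε'
  obtain ⟨c, hc, d5, hPT⟩ := h5 s1 s2 ε' hs1 hs2 hε'
  obtain ⟨n1, hn1⟩ := r_evup θ c1 c2 (ε / 2) (C / c) hθ hc1 hc20 (by positivity) (by positivity)
  obtain ⟨n2, hn2⟩ := r_evlow θ c2 (ε / 2) C hθ hc20 (by positivity) hC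
  -- n large forces d large
  have hs : Tendsto (fun n : ℕ => c1 * Real.sqrt n) atTop atTop :=
    (Real.tendsto_sqrt_atTop.comp tendsto_natCast_atTop_atTop).const_mul_atTop hc1
  obtain ⟨n3, hn3⟩ := (hs.eventually_ge_atTop (((d1 + d2 + d3 + d4 + d5 + 1 : ℕ)) : ℝ)).exists_forall_of_atTop
  refine ⟨n1 + n2 + n3 + 1, fun n hn d hd1 hd2 => ?_⟩
  have hdl : d1 + d2 + d3 + d4 + d5 + 1 ≤ d := by
    have := le_trans (hn3 n (by omega)) hd1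
    exact_mod_cast this
  obtain ⟨σ, hσ, hσ1, hσ2, hσ3⟩ := hB1 n d (by omega) (by omega) hd1 hd2
  have key := r_core d n σ θ (ε / 2) C c ε' (by omega) hσ hC hc h8 hσ1 (h2 d n σ (by omega) hσ)
    (hB4u d (by omega) σ hσ hσ2 hσ3) (hB4l d (by omega) σ hσ hσ2 hσ3)
    (hPU d (by omega) σ hσ hσ2 hσ3) (hPL d (by omega) σ hσ hσ2 hσ3) (hPT d (by omega) σ hσ hσ2 hσ3)
  have e1 : 2 * (ε / 2) = ε := by ring
  have k1 := hn1 n (by omega) d hd1 hd2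
  have k2 := hn2 n (by omega) d (by omega) hd2
  rw [e1] at k1 k2
  rw [e1] at key
  constructor
  · refine le_trans key.1 (mul_le_mul_of_nonneg_right ?_ (Nat.cast_nonneg _))
    exact k1
  · refine le_trans (mul_le_mul_of_nonneg_right k2 (Nat.cast_nonneg _)) key.2

end Pool.Agent.H337.GP174
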